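import Mathlib

/-! Two matrices generating many things. -/

namespace Pool.Agent.H67.PI

set_option linter.unusedSectionVars false

open Finset Matrix

universe u v

section

variable {C : Type v} [Ring C] {N : ℕ} [NeZero N]

/-- cyclic shift matrices -/
def P (C : Type v) [Ring C] (N : ℕ) (p : ZMod N) : Matrix (ZMod N) (ZMod N) C :=
  Matrix.of fun i j => if j = i + p then 1 else 0

theorem P_zero : P C N 0 = 1 := by
  ext i j
  simp [P, Matrix.one_apply, eq_comm]

theorem P_mul (p q : ZMod N) : P C N p * P C N q = P C N (p + q) := by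
  ext i j
  simp only [P, Matrix.mul_apply, Matrix.of_apply, ite_mul, one_mul, zero_mul]
  rw [Finset.sum_eq_single (i + p)]
  · simp [add_assoc]
  · intro b _ hb
    simp [hb]
  · simp

theorem P_pow (n : ℕ) : (P C N 1) ^ n = P C N (n : ZMod N) := by
  induction n with
  | zero => simp [P_zero]
  | succ n ih => rw [pow_succ, ih, P_mul]; push_cast; rfl

theorem P_conj (p q : ZMod N) (hq : p + q = 0) (h : ZMod N → C) :
    P C N p * Matrix.diagonal h * P C N q = Matrix.diagonal fun i => h (i + p) := by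
  ext i j
  rw [Matrix.mul_apply]
  simp only [Matrix.mul_diagonal]
  simp only [P, Matrix.of_apply, ite_mul, one_mul, zero_mul, mul_ite, mul_one, mul_zero]
  rw [Finset.sum_eq_single (i + p)]
  · rw [Matrix.diagonal_apply, add_assoc, hq, add_zero]
    simp [eq_comm]
  · intro b _ hb
    simp [hb]
  · simp

/-- the diagonal pattern -/
def g (a' : ℕ → C) (n : ℕ) : C :=
  if n = 0 ∨ n = 1 ∨ n = 3 then 1 else if 8 ≤ n ∧ n % 4 = 0 then a' ((n - 8) / 4) else 0

theorem g_zero (a' : ℕ → C) (n : ℕ) (h1 : ¬ (n = 0 ∨ n = 1 ∨ n = 3)) (h2 : ¬ (8 ≤ n ∧ n % 4 = 0)) :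
    g a' n = 0 := by
  unfold g
  rw [if_neg h1, if_neg h2]

theorem g_a (a' : ℕ → C) (j : ℕ) : g a' (4 * j + 8) = a' j := by
  unfold g
  rw [if_neg (by omega), if_pos (by omega)]
  congr 1
  omega

theorem val_add (i : ZMod N) (p : ℕ) : (i + (p : ZMod N)).val = (i.val + p) % N := by
  rw [ZMod.val_add, ZMod.val_natCast, Nat.add_mod_mod]

/-- the pattern on `ZMod N` -/
def h (N : ℕ) (a' : ℕ → C) (i : ZMod N) : C := g a' i.val

theorem h_mul_one (hN : N % 4 = 0) (hN8 : 20 ≤ N) (a' : ℕ → C) (i : ZMod N) :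
    h N a' i * h N a' (i + 1) = if i = 0 then 1 else 0 := by
  have hi : i.val < N := ZMod.val_lt i
  have h0 : i = 0 ↔ i.val = 0 := (ZMod.val_eq_zero i).symm
  have h1 := val_add i 1
  rw [Nat.cast_one] at h1
  unfold h
  rw [h1]
  simp only [h0]
  generalize i.val = n at *
  rcases Nat.lt_or_ge (n + 1) N with h2 | h2
  · rw [Nat.mod_eq_of_lt h2]
    by_cases hn : n = 0
    · subst hn; simp [g]
    · rw [if_neg hn]
      by_cases hz : n = 1 ∨ n = 3 ∨ (8 ≤ n ∧ n % 4 = 0)
      · rw [g_zero a' (n + 1) (by omega) (by omega), mul_zero]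
      · rw [g_zero a' n (by omega) (by omega), zero_mul]
  · rw [if_neg (by omega), g_zero a' n (by omega) (by omega), zero_mul]

theorem h_sum_one (hN : N % 4 = 0) (hN8 : 20 ≤ N) (a' : ℕ → C) (i : ZMod N) :
    h N a' i * (h N a' (i + 1) + h N a' (i + ((N - 1 : ℕ) : ZMod N))) +
      (h N a' (i + 1) + h N a' (i + ((N - 1 : ℕ) : ZMod N))) * h N a' i =
      if i = 0 ∨ i = 1 then 2 else 0 := by
  have hi : i.val < N := ZMod.val_lt i
  have h0 : i = 0 ↔ i.val = 0 := (ZMod.val_eq_zero i).symm
  have h0' : i = 1 ↔ i.val = 1 := by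
    constructor
    · rintro rfl
      have := ZMod.val_natCast N 1
      rw [Nat.cast_one] at this
      rw [this, Nat.mod_eq_of_lt (by omega)]
    · intro hv
      have := ZMod.natCast_zmod_val i
      rw [hv] at this
      rw [← this, Nat.cast_one]
  have h1 := val_add i 1
  have h2 := val_add i (N - 1)
  rw [Nat.cast_one] at h1
  unfold h
  rw [h1, h2]
  simp only [h0, h0']
  generalize i.val = n at *
  by_cases hn0 : n = 0
  · subst hn0
    rw [Nat.mod_eq_of_lt (by omega), Nat.mod_eq_of_lt (by omega), zero_add, zero_add,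
      g_zero a' (N - 1) (by omega) (by omega)]
    simp [g]
    norm_num
  · by_cases hn1 : n = 1
    · subst hn1
      have e1 : (1 + (N - 1)) % N = 0 := by
        rw [Nat.add_sub_cancel' (by omega)]; exact Nat.mod_self N
      rw [Nat.mod_eq_of_lt (by omega), e1]
      rw [g_zero a' (1 + 1) (by omega) (by omega)]
      simp [g]
      norm_num
    · rw [if_neg (by omega)]
      have e1 : (n + (N - 1)) % N = n - 1 := by
        have : n + (N - 1) = (n - 1) + N := by omega
        rw [this, Nat.add_mod_right, Nat.mod_eq_of_lt (by omega)]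
      rw [e1]
      by_cases hz : n = 3 ∨ (8 ≤ n ∧ n % 4 = 0)
      · rw [Nat.mod_eq_of_lt (by omega), g_zero a' (n + 1) (by omega) (by omega),
          g_zero a' (n - 1) (by omega) (by omega)]
        simp
      · rw [g_zero a' n (by omega) (by omega)]
        simp

theorem h_sum_two (hN : N % 4 = 0) (hN8 : 20 ≤ N) (a' : ℕ → C) (i : ZMod N) :
    h N a' i * (h N a' (i + ((2 : ℕ) : ZMod N)) + h N a' (i + ((N - 2 : ℕ) : ZMod N))) +
      (h N a' (i + ((2 : ℕ) : ZMod N)) + h N a' (i + ((N - 2 : ℕ) : ZMod N))) * h N a' i =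
      if i = 1 ∨ i.val = 3 then 2 else 0 := by
  have hi : i.val < N := ZMod.val_lt i
  have h0' : i = 1 ↔ i.val = 1 := by
    constructor
    · rintro rfl
      have := ZMod.val_natCast N 1
      rw [Nat.cast_one] at this
      rw [this, Nat.mod_eq_of_lt (by omega)]
    · intro hv
      have := ZMod.natCast_zmod_val i
      rw [hv] at this
      rw [← this, Nat.cast_one]
  have h1 := val_add i 2
  have h2 := val_add i (N - 2)
  unfold h
  rw [h1, h2]
  simp only [h0']
  generalize i.val = n at *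
  by_cases hn0 : n = 0
  · subst hn0
    rw [Nat.mod_eq_of_lt (by omega), Nat.mod_eq_of_lt (by omega), zero_add, zero_add,
      g_zero a' (N - 2) (by omega) (by omega), g_zero a' 2 (by omega) (by omega)]
    simp
  by_cases hn1 : n = 1
  · subst hn1
    rw [Nat.mod_eq_of_lt (by omega), Nat.mod_eq_of_lt (by omega)]
    rw [g_zero a' (1 + (N - 2)) (by omega) (by omega)]
    simp [g]
    norm_num
  have e1 : (n + (N - 2)) % N = n - 2 := by
    have : n + (N - 2) = (n - 2) + N := by omega
    rw [this, Nat.add_mod_right, Nat.mod_eq_of_lt (by omega)]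
  rw [e1]
  by_cases hn3 : n = 3
  · subst hn3
    rw [Nat.mod_eq_of_lt (by omega), g_zero a' (3 + 2) (by omega) (by omega)]
    simp [g]
    norm_num
  · rw [if_neg (by omega)]
    by_cases hz : 8 ≤ n ∧ n % 4 = 0
    · rw [Nat.mod_eq_of_lt (by omega), g_zero a' (n + 2) (by omega) (by omega),
        g_zero a' (n - 2) (by omega) (by omega)]
      simp
    · rw [g_zero a' n (by omega) (by omega)]
      simp

theorem h_at_zero (a' : ℕ → C) (j : ℕ) (hj : 4 * j + 8 < N) :
    h N a' (0 + ((4 * j + 8 : ℕ) : ZMod N)) = a' j := by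
  unfold h
  rw [val_add, ZMod.val_zero, zero_add, Nat.mod_eq_of_lt hj, g_a]

theorem h_at_one (hN : N % 4 = 0) (a' : ℕ → C) (j : ℕ) (hj : 4 * j + 12 < N) :
    h N a' (1 + ((4 * j + 7 : ℕ) : ZMod N)) + h N a' (1 + ((N - (4 * j + 7) : ℕ) : ZMod N)) =
      a' j := by
  have h1 : (1 : ZMod N).val = 1 := by
    have := ZMod.val_natCast N 1
    rw [Nat.cast_one] at this
    rw [this, Nat.mod_eq_of_lt (by omega)]
  unfold h
  rw [val_add, val_add, h1, Nat.mod_eq_of_lt (by omega), Nat.mod_eq_of_lt (by omega),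
    g_zero a' (1 + (N - (4 * j + 7))) (by omega) (by omega), add_zero]
  have : 1 + (4 * j + 7) = 4 * j + 8 := by ring
  rw [this, g_a]

end

end Pool.Agent.H67.PI
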