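import Pool.Agent.H67.PI.Red

/-! Matrices over a unital algebra `C = F 1 + S`, where the subalgebra `S` satisfies a multilinear
identity, satisfy a multilinear identity. -/

namespace Pool.Agent.H67.PI

open Finset

universe u v

theorem multilin_zero {F : Type*} [Field F] {V W : Type*} [AddCommGroup V] [Module F V]
    [AddCommGroup W] [Module F W] {m : ℕ} (g : MultilinearMap F (fun _ : Fin m => V) W)
    (E : Set V) (hE : Submodule.span F E = ⊤) (h : ∀ X : Fin m → V, (∀ j, X j ∈ E) → g X = 0)
    (X : Fin m → V) : g X = 0 := by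
  classical
  have key : ∀ s : Finset (Fin m), ∀ X : Fin m → V, (∀ j, j ∉ s → X j ∈ E) → g X = 0 := by
    intro s
    induction s using Finset.induction_on with
    | empty => intro X hX; exact h X (fun j => hX j (by simp))
    | insert i s his ih =>
      intro X hX
      have h1 : ∀ y : V, g (Function.update X i y) = 0 := by
        intro y
        have hy : y ∈ Submodule.span F E := by rw [hE]; trivial
        induction hy using Submodule.span_induction with
        | mem y hy =>
          apply ih
          intro j hj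
          by_cases hji : j = i
          · subst hji; rwa [Function.update_self]
          · rw [Function.update_of_ne hji]
            exact hX j (by simp [hji, hj])
        | zero => exact g.map_update_zero X i
        | add y z _ _ h1 h2 => rw [g.map_update_add, h1, h2, add_zero]
        | smul c y _ h1 => rw [g.map_update_smul, h1, smul_zero]
      have := h1 (X i)
      rwa [Function.update_eq_self] at this
  exact key univ X (fun j hj => absurd (mem_univ j) hj)

theorem prod_single {F : Type u} [Field F] {C : Type v} [Ring C] [Algebra F C] {ι : Type*}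
    [Fintype ι] [DecidableEq ι] {m : ℕ} (p q : Fin m → ι) (u : Fin m → C) (l : List (Fin m))
    (s e : ι) :
    (l.map fun j => Matrix.single (p j) (q j) (u j)).prod s e =
      ((l.map fun j => Matrix.single (p j) (q j) (1 : F)).prod s e) • (l.map u).prod := by
  induction l generalizing s with
  | nil =>
    simp only [List.map_nil, List.prod_nil, Matrix.one_apply]
    split_ifs <;> simp
  | cons i l ih =>
    simp only [List.map_cons, List.prod_cons, Matrix.mul_apply]
    rw [Finset.sum_smul]
    apply Finset.sum_congr rfl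
    intro k _
    rw [ih k, mul_smul_comm, mul_smul]
    by_cases hk : p i = s ∧ q i = k
    · obtain ⟨rfl, rfl⟩ := hk
      simp [smul_smul]
    · rw [Matrix.single_apply_of_ne _ _ _ _ _ hk, Matrix.single_apply_of_ne _ _ _ _ _ hk]
      simp

theorem filter_prod {C : Type v} [Ring C] {m : ℕ} (T : Finset (Fin m)) (u a : Fin m → C)
    (h1 : ∀ j, j ∉ T → u j = 1) (h2 : ∀ j, j ∈ T → u j = a j) (l : List (Fin m)) :
    (l.map u).prod = ((l.filter (fun j => decide (j ∈ T))).map a).prod := by
  induction l with
  | nil => simp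
  | cons i l ih =>
    by_cases hi : i ∈ T
    · rw [List.filter_cons_of_pos (by simpa using hi)]
      simp [ih, h2 i hi]
    · rw [List.filter_cons_of_neg (by simpa using hi)]
      simp [ih, h1 i hi]

theorem exists_m (K L : ℕ) : ∃ m : ℕ, 0 < m ∧ K ^ m * L < m.factorial := by
  have h := FloorSemiring.tendsto_pow_div_factorial_atTop (K := ℝ) (K : ℝ)
  have h2 := h.eventually (gt_mem_nhds (show (0 : ℝ) < 1 / (L + 1) by positivity))
  obtain ⟨m, hm1, hm2⟩ := (h2.and (Filter.eventually_gt_atTop 0)).exists
  refine ⟨m, hm2, ?_⟩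
  have hf : (0 : ℝ) < m.factorial := by positivity
  rw [div_lt_div_iff₀ hf (by positivity)] at hm1
  have h3 : ((K ^ m * L : ℕ) : ℝ) < (m.factorial : ℝ) := by
    push_cast
    nlinarith [pow_nonneg (Nat.cast_nonneg (α := ℝ) K) m]
  exact_mod_cast h3

section

variable {m d : ℕ}

open Classical in
/-- the word with the given letters, colours and colour sequence -/
noncomputable def decode (T : Finset (Fin m)) (χ ψ : Fin m → Fin (d + 1)) : List (Fin m) :=
  if h : ∃ v : List (Fin m), v.Perm T.toList ∧ Col χ v ∧ v.map χ <+: List.ofFn ψ then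
    h.choose else []

theorem decode_surj (T : Finset (Fin m)) (v : List (Fin m)) (hv : v.Perm T.toList)
    (hg : Good d v) : ∃ χ ψ : Fin m → Fin (d + 1), decode T χ ψ = v := by
  have hnd : v.Nodup := hv.nodup_iff.2 (Finset.nodup_toList T)
  obtain ⟨χ, hχ⟩ := exists_col_fin v hnd hg
  have hlen : v.length ≤ m := by
    have := hnd.length_le_card
    simpa using this
  obtain ⟨ψ, hψ⟩ : ∃ ψ : Fin m → Fin (d + 1), v.map χ ++ List.replicate (m - v.length) 0 =
      List.ofFn ψ := exists_ofFn _ (by simp; omega)
  refine ⟨χ, ψ, ?_⟩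
  have hpre : v.map χ <+: List.ofFn ψ := by
    rw [← hψ]
    exact List.prefix_append _ _
  have hex : ∃ v : List (Fin m), v.Perm T.toList ∧ Col χ v ∧ v.map χ <+: List.ofFn ψ :=
    ⟨v, hv, hχ, hpre⟩
  unfold decode
  rw [dif_pos hex]
  obtain ⟨h1, h2, h3⟩ := hex.choose_spec
  have hp : hex.choose.Perm v := h1.trans hv.symm
  apply col_inj χ _ _ hp h2 hχ
  apply List.IsPrefix.eq_of_length (List.prefix_of_prefix_length_le h3 hpre _)
  · simp [hp.length_eq]
  · simp [hp.length_eq]

end

/-- Matrices over `C = F 1 + S` satisfy a multilinear identity. -/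
theorem matrix_identity {F : Type u} [Field F] {C : Type v} [Ring C] [Algebra F C]
    (S : Submodule F C)
    (hS : ∀ x ∈ S, ∀ y ∈ S, x * y ∈ S) {d : ℕ} (c : Equiv.Perm (Fin d) → F) (hc1 : c 1 = 1)
    (hc : ∀ a : Fin d → C, (∀ i, a i ∈ S) → ∑ τ, c τ • (List.ofFn fun k => a (τ k)).prod = 0)
    (hspan : ∀ x : C, ∃ t : F, ∃ s ∈ S, x = t • (1 : C) + s)
    (ι : Type) [Fintype ι] [DecidableEq ι] :
    ∃ (m : ℕ) (α : Equiv.Perm (Fin m) → F), 0 < m ∧ α ≠ 0 ∧ ∀ X : Fin m → Matrix ι ι C,
      ∑ π, α π • (List.ofFn fun k => X (π k)).prod = 0 := by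
  classical
  obtain ⟨m, hm0, hm⟩ := exists_m (2 * Fintype.card ι * Fintype.card ι * (d + 1) * (d + 1))
    (Fintype.card ι * Fintype.card ι)
  have hred := fun w : List (Fin m) => reduce S hS c hc1 hc w
  choose R hR1 hR2 using hred
  set κ : Equiv.Perm (Fin m) → (Fin m → ι) → (Fin m → ι) → ι → ι → F := fun π p q s e =>
    ((List.ofFn π).map fun j => Matrix.single (p j) (q j) (1 : F)).prod s e with hκ
  set W : Equiv.Perm (Fin m) → Finset (Fin m) → List (Fin m) := fun π T =>
    (List.ofFn π).filter (fun j => decide (j ∈ T)) with hW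
  let E := Finset (Fin m) × (Fin m → ι) × (Fin m → ι) × ι × ι × (Fin m → Fin (d + 1)) ×
    (Fin m → Fin (d + 1))
  let Φ : (Equiv.Perm (Fin m) → F) →ₗ[F] (E → F) :=
    { toFun := fun α e => ∑ π, α π * (κ π e.2.1 e.2.2.1 e.2.2.2.1 e.2.2.2.2.1 *
        R (W π e.1) (decode e.1 e.2.2.2.2.2.1 e.2.2.2.2.2.2))
      map_add' := by
        intro α β
        funext e
        simp only [Pi.add_apply, add_mul, Finset.sum_add_distrib]
      map_smul' := by
        intro t α
        funext e
        simp only [Pi.smul_apply, smul_eq_mul, RingHom.id_apply, Finset.mul_sum, mul_assoc] }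
  have hrank : Module.finrank F (E → F) < Module.finrank F (Equiv.Perm (Fin m) → F) := by
    rw [Module.finrank_fintype_fun_eq_card, Module.finrank_fintype_fun_eq_card,
      Fintype.card_perm, Fintype.card_fin]
    refine lt_of_eq_of_lt ?_ hm
    simp only [E, Fintype.card_prod, Fintype.card_finset, Fintype.card_fin, Fintype.card_pi,
      Finset.prod_const, Finset.card_univ, mul_pow]
    ring
  have hker := LinearMap.ker_ne_bot_of_finrank_lt (f := Φ) hrank
  obtain ⟨α, hα1, hα0⟩ := Submodule.exists_mem_ne_zero_of_ne_bot hker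
  have hα : ∀ e : E, ∑ π, α π * (κ π e.2.1 e.2.2.1 e.2.2.2.1 e.2.2.2.2.1 *
        R (W π e.1) (decode e.1 e.2.2.2.2.2.1 e.2.2.2.2.2.2)) = 0 := fun e =>
    congrFun (LinearMap.mem_ker.1 hα1) e
  refine ⟨m, α, hm0, hα0, ?_⟩
  -- the words of the filtered permutations
  have hWp : ∀ π T, (W π T).Perm T.toList := by
    intro π T
    rw [List.perm_ext_iff_of_nodup]
    · intro j
      simp only [hW, List.mem_filter, List.mem_ofFn, Finset.mem_toList, decide_eq_true_eq]
      constructor
      · exact fun h => h.2
      · exact fun h => ⟨⟨π.symm j, by simp⟩, h⟩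
    · exact (List.nodup_ofFn.2 π.injective).filter _
    · exact Finset.nodup_toList T
  have hρ : ∀ (T : Finset (Fin m)) (p q : Fin m → ι) (s e : ι),
      ∑ π, (α π * κ π p q s e) • R (W π T) = 0 := by
    intro T p q s e
    ext v
    rw [Finsupp.finsetSum_apply, Finsupp.coe_zero, Pi.zero_apply]
    by_cases hv : v.Perm T.toList ∧ Good d v
    · obtain ⟨χ, ψ, hχψ⟩ := decode_surj T v hv.1 hv.2
      have := hα (T, p, q, s, e, χ, ψ)
      simp only [hχψ] at this
      rw [← this]
      apply Finset.sum_congr rfl
      intro π _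
      rw [Finsupp.smul_apply, smul_eq_mul, mul_assoc]
    · apply Finset.sum_eq_zero
      intro π _
      have : R (W π T) v = 0 := by
        by_contra hne
        have h1 := hR1 (W π T) v (Finsupp.mem_support_iff.2 hne)
        exact hv ⟨h1.1.trans (hWp π T), h1.2⟩
      rw [Finsupp.smul_apply, this, smul_zero]
  let g : MultilinearMap F (fun _ : Fin m => Matrix ι ι C) (Matrix ι ι C) :=
    ∑ π : Equiv.Perm (Fin m), α π •
      ((MultilinearMap.mkPiAlgebraFin F m (Matrix ι ι C)).domDomCongr π)
  have hg : ∀ X, g X = ∑ π, α π • (List.ofFn fun k => X (π k)).prod := by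
    intro X
    simp only [g, _root_.sum_apply, _root_.smul_apply,
      MultilinearMap.domDomCongr_apply, MultilinearMap.mkPiAlgebraFin_apply]
  intro X
  rw [← hg]
  refine multilin_zero g {Y | ∃ p q u, (u = 1 ∨ u ∈ S) ∧ Y = Matrix.single p q u} ?_ ?_ X
  · rw [eq_top_iff]
    rintro Y -
    rw [Matrix.matrix_eq_sum_single Y]
    apply Submodule.sum_mem
    intro i _
    apply Submodule.sum_mem
    intro j _
    obtain ⟨t, s, hs, hx⟩ := hspan (Y i j)
    rw [hx, Matrix.single_add, ← Matrix.smul_single]
    apply Submodule.add_mem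
    · exact Submodule.smul_mem _ _ (Submodule.subset_span ⟨i, j, 1, Or.inl rfl, rfl⟩)
    · exact Submodule.subset_span ⟨i, j, s, Or.inr hs, rfl⟩
  · intro Y hY
    choose p q u hu hY using hY
    rw [hg]
    set T : Finset (Fin m) := univ.filter fun j => u j ∈ S with hT
    set a : Fin m → C := fun j => if u j ∈ S then u j else 0 with ha
    have haS : ∀ j, a j ∈ S := by
      intro j
      simp only [ha]
      split_ifs with h
      · exact h
      · exact S.zero_mem
    have hu1 : ∀ j, j ∉ T → u j = 1 := by
      intro j hj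
      have : u j ∉ S := by simpa [hT] using hj
      exact (hu j).resolve_right this
    have hu2 : ∀ j, j ∈ T → u j = a j := by
      intro j hj
      have : u j ∈ S := by simpa [hT] using hj
      simp [ha, this]
    ext s e
    have h1 : ∀ π : Equiv.Perm (Fin m), (α π • (List.ofFn fun k => Y (π k)).prod) s e =
        (α π * κ π p q s e) • Finsupp.linearCombination F
          (fun v : List (Fin m) => (v.map a).prod) (R (W π T)) := by
      intro π
      rw [Matrix.smul_apply]
      have h2 : (List.ofFn fun k => Y (π k)) =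
          (List.ofFn π).map fun j => Matrix.single (p j) (q j) (u j) := by
        rw [List.map_ofFn]
        congr 1
        funext k
        simp [hY]
      rw [h2, prod_single (F := F) p q u (List.ofFn π) s e, filter_prod T u a hu1 hu2,
        hR2 _ a haS, mul_smul]
    rw [Matrix.sum_apply, Finset.sum_congr rfl (fun π _ => h1 π)]
    simp only [← map_smul]
    rw [← map_sum, hρ T p q s e, map_zero]
    rfl

end Pool.Agent.H67.PI
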