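import Pool.Agent.H67.PI.Lin
import Pool.Agent.H67.PI.Mat
import Pool.Agent.H67.PI.Gen

/-! Embedding into two-generated algebras: the ingredients. -/

namespace Pool.Agent.H67.PI

open Finset Matrix

universe u v

section

variable (F : Type u) [Field F] {C : Type v} [Ring C] [Algebra F C] {N : ℕ} [NeZero N]

theorem P_mem (S : NonUnitalSubalgebra F (Matrix (ZMod N) (ZMod N) C)) (h1 : P C N 1 ∈ S)
    (p : ZMod N) : P C N p ∈ S := by
  have h2 : ∀ n : ℕ, (P C N 1) ^ (n + 1) ∈ S := by
    intro n
    induction n with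
    | zero => simpa using h1
    | succ n ih => rw [pow_succ]; exact mul_mem ih h1
  have hN : 0 < N := Nat.pos_of_ne_zero (NeZero.ne N)
  have h3 := h2 (p.val + (N - 1))
  rw [P_pow] at h3
  have h4 : ((p.val + (N - 1) + 1 : ℕ) : ZMod N) = p := by
    have : p.val + (N - 1) + 1 = p.val + N := by omega
    rw [this]
    push_cast
    rw [ZMod.natCast_zmod_val, ZMod.natCast_self, add_zero]
  rwa [h4] at h3

theorem assoc_gen (hN : N % 4 = 0) (hN8 : 20 ≤ N) (a' : ℕ → C)
    (S : NonUnitalSubalgebra F (Matrix (ZMod N) (ZMod N) C)) (h1 : P C N 1 ∈ S)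
    (h2 : Matrix.diagonal (h N a') ∈ S) (j : ℕ) (hj : 4 * j + 8 < N) :
    Matrix.single (0 : ZMod N) 0 (a' j) ∈ S := by
  have h3 : ∀ p : ZMod N, Matrix.diagonal (fun i => h N a' (i + p)) ∈ S := by
    intro p
    rw [← P_conj p (-p) (by simp)]
    exact mul_mem (mul_mem (P_mem F S h1 p) h2) (P_mem F S h1 (-p))
  have h4 : Matrix.diagonal (fun i : ZMod N => if i = 0 then (1 : C) else 0) ∈ S := by
    have := mul_mem h2 (h3 1)
    rw [Matrix.diagonal_mul_diagonal] at this
    simpa only [h_mul_one hN hN8] using this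
  have h5 := mul_mem h4 (h3 ((4 * j + 8 : ℕ) : ZMod N))
  rw [Matrix.diagonal_mul_diagonal] at h5
  convert h5 using 1
  ext i l
  rw [Matrix.diagonal_apply, Matrix.single_apply]
  by_cases hil : i = l
  · subst hil
    by_cases hi : i = 0
    · subst hi
      rw [h_at_zero a' j hj]
      simp
    · simp [hi, Ne.symm hi]
  · by_cases hi : 0 = i
    · subst hi
      simp [hil]
    · simp [hi, hil]

end

section

variable {F : Type u} [Field F]

/-- the polynomial of a multilinear identity -/
noncomputable def mlp {m : ℕ} (α : Equiv.Perm (Fin m) → F) : FreeAlgebra F (Fin m) :=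
  ∑ π, α π • (List.ofFn fun k => FreeAlgebra.ι F (π k)).prod

theorem mlp_ne_zero {m : ℕ} (α : Equiv.Perm (Fin m) → F) (hα : α ≠ 0) : mlp α ≠ 0 := by
  classical
  intro h0
  apply hα
  funext π0
  have h1 : ∀ π : Equiv.Perm (Fin m), (List.ofFn fun k => FreeAlgebra.ι F (π k)).prod =
      FreeAlgebra.basisFreeMonoid F (Fin m) (FreeMonoid.ofList (List.ofFn π)) := by
    intro π
    rw [basis_eq, FreeMonoid.toList_ofList, List.map_ofFn]
    rfl
  have h2 := congrArg (fun f => (FreeAlgebra.basisFreeMonoid F (Fin m)).repr f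
    (FreeMonoid.ofList (List.ofFn π0))) h0
  simp only [mlp, h1, map_sum, map_smul, Module.Basis.repr_self, map_zero, Finsupp.coe_zero,
    Pi.zero_apply, Finsupp.finsetSum_apply, Finsupp.smul_apply, Finsupp.single_apply] at h2
  rw [Finset.sum_eq_single π0] at h2
  · simpa using h2
  · intro π _ hπ
    rw [if_neg, smul_zero]
    intro h3
    apply hπ
    have h4 := FreeMonoid.ofList.injective h3
    exact Equiv.coe_fn_injective (List.ofFn_injective h4)
  · simp

theorem mlp_const {m : ℕ} (hm : 0 < m) (α : Equiv.Perm (Fin m) → F) :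
    FreeAlgebra.algebraMapInv (mlp α) = 0 := by
  unfold mlp
  rw [map_sum]
  apply Finset.sum_eq_zero
  intro π _
  rw [map_smul, map_list_prod, List.map_ofFn]
  obtain ⟨m, rfl⟩ : ∃ n, m = n + 1 := ⟨m - 1, by omega⟩
  rw [List.ofFn_succ]
  simp [FreeAlgebra.algebraMapInv]

theorem mlp_lift {m : ℕ} (α : Equiv.Perm (Fin m) → F) {C : Type v} [Ring C] [Algebra F C]
    (X : Fin m → C) :
    FreeAlgebra.lift F X (mlp α) = ∑ π, α π • (List.ofFn fun k => X (π k)).prod := by
  unfold mlp
  rw [map_sum]
  apply Finset.sum_congr rfl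
  intro π _
  rw [map_smul, map_list_prod, List.map_ofFn]
  congr 3
  funext k
  simp

/-- evaluation in the unitization versus evaluation in an ambient unital algebra -/
theorem ev_eq_zero {n : ℕ} (f : FreeAlgebra F (Fin n)) (hf : FreeAlgebra.algebraMapInv f = 0)
    {B : Type v} [NonUnitalRing B] [Module F B] [IsScalarTower F B B] [SMulCommClass F B B]
    {C : Type*} [Ring C] [Algebra F C] (ψ : B →ₙₐ[F] C) (hψ : Function.Injective ψ)
    (a : Fin n → B) (h : FreeAlgebra.lift F (fun i => ψ (a i)) f = 0) :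
    FreeAlgebra.lift F (fun i => (Unitization.inr (a i) : Unitization F B)) f = 0 := by
  set z := FreeAlgebra.lift F (fun i => (Unitization.inr (a i) : Unitization F B)) f with hz
  have h1 : z.fst = 0 := by
    have : (Unitization.fstHom F B).comp
        (FreeAlgebra.lift F (fun i => (Unitization.inr (a i) : Unitization F B))) =
        FreeAlgebra.algebraMapInv := by
      ext i
      simp [FreeAlgebra.algebraMapInv]
    have h2 := congrArg (fun g => g f) this
    simp only [AlgHom.comp_apply, hf] at h2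
    exact h2
  have h2 : (Unitization.lift ψ) z = 0 := by
    have : (Unitization.lift ψ).comp
        (FreeAlgebra.lift F (fun i => (Unitization.inr (a i) : Unitization F B))) =
        FreeAlgebra.lift F (fun i => ψ (a i)) := by
      ext i
      simp
    have h3 := congrArg (fun g => g f) this
    simp only [AlgHom.comp_apply, h] at h3
    exact h3
  have h3 : z = Unitization.inr z.snd := by
    conv_lhs => rw [← Unitization.inl_fst_add_inr_snd_eq z]
    rw [h1]
    simp
  rw [h3] at h2
  have h5 : (Unitization.lift ψ) (Unitization.inr z.snd) = ψ z.snd := by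
    have := Unitization.lift_symm_apply_apply (Unitization.lift ψ) z.snd
    rw [Equiv.symm_apply_apply] at this
    exact this.symm
  rw [h5] at h2
  have h4 : z.snd = 0 := hψ (by rw [h2, map_zero])
  rw [h3, h4, Unitization.inr_zero]

/-- Matrices over the unitization of an algebra with a polynomial identity satisfy a multilinear
identity. -/
theorem unitization_matrix {A : Type v} [NonUnitalRing A] [Module F A] [IsScalarTower F A A]
    [SMulCommClass F A A] {n : ℕ} (f : FreeAlgebra F (Fin n)) (hf : f ≠ 0)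
    (h : ∀ a : Fin n → A,
      FreeAlgebra.lift F (fun i => (Unitization.inr (a i) : Unitization F A)) f = 0)
    (ι : Type) [Fintype ι] [DecidableEq ι] :
    ∃ (m : ℕ) (α : Equiv.Perm (Fin m) → F), 0 < m ∧ α ≠ 0 ∧
      ∀ X : Fin m → Matrix ι ι (Unitization F A),
      ∑ π, α π • (List.ofFn fun k => X (π k)).prod = 0 := by
  set S : Submodule F (Unitization F A) := LinearMap.range (Unitization.inrHom F F A) with hS
  have hmem : ∀ x, x ∈ S ↔ ∃ b : A, (Unitization.inr b : Unitization F A) = x := by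
    intro x
    rw [hS, LinearMap.mem_range]
    rfl
  obtain ⟨d, c, hc1, hc⟩ := linearise S f hf (by
    intro a ha
    choose b hb using fun i => (hmem (a i)).1 (ha i)
    have : a = fun i => (Unitization.inr (b i) : Unitization F A) := by
      funext i; rw [hb]
    rw [this]
    exact h b)
  refine matrix_identity S ?_ c hc1 hc ?_ ι
  · intro x hx y hy
    obtain ⟨b, rfl⟩ := (hmem x).1 hx
    obtain ⟨b', rfl⟩ := (hmem y).1 hy
    rw [hmem]
    exact ⟨b * b', Unitization.inr_mul _ _ _⟩
  · intro x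
    refine ⟨x.fst, Unitization.inr x.snd, (hmem _).2 ⟨x.snd, rfl⟩, ?_⟩
    conv_lhs => rw [← Unitization.inl_fst_add_inr_snd_eq x]
    congr 1
    ext <;> simp

theorem adjoin_two {M : Type v} [Ring M] [Algebra F M] (x y : M) :
    ∃ a : Fin 2 → NonUnitalAlgebra.adjoin F ({x, y} : Set M),
      NonUnitalAlgebra.adjoin F (Set.range a) = ⊤ := by
  have hx : x ∈ NonUnitalAlgebra.adjoin F ({x, y} : Set M) :=
    NonUnitalAlgebra.subset_adjoin F (by simp)
  have hy : y ∈ NonUnitalAlgebra.adjoin F ({x, y} : Set M) :=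
    NonUnitalAlgebra.subset_adjoin F (by simp)
  refine ⟨![⟨x, hx⟩, ⟨y, hy⟩], ?_⟩
  rw [NonUnitalAlgebra.eq_top_iff]
  rintro ⟨z, hz⟩
  have h1 : NonUnitalAlgebra.adjoin F ({x, y} : Set M) ≤ (NonUnitalAlgebra.adjoin F
      (Set.range ![(⟨x, hx⟩ : NonUnitalAlgebra.adjoin F ({x, y} : Set M)), ⟨y, hy⟩])).map
        (NonUnitalSubalgebraClass.subtype (NonUnitalAlgebra.adjoin F ({x, y} : Set M))) := by
    rw [NonUnitalAlgebra.adjoin_le_iff]
    rintro w hw
    rcases hw with rfl | hw
    · exact ⟨⟨w, hx⟩, NonUnitalAlgebra.subset_adjoin F ⟨0, rfl⟩, rfl⟩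
    · rw [Set.mem_singleton_iff] at hw
      subst hw
      exact ⟨⟨w, hy⟩, NonUnitalAlgebra.subset_adjoin F ⟨1, rfl⟩, rfl⟩
  obtain ⟨w, hw1, hw2⟩ := h1 hz
  have : w = ⟨z, hz⟩ := Subtype.ext hw2
  rw [← this]
  exact hw1

theorem mlp_sub {M : Type v} [Ring M] [Algebra F M] (B : NonUnitalSubalgebra F M) {m : ℕ}
    (hm : 0 < m) (α : Equiv.Perm (Fin m) → F)
    (h : ∀ X : Fin m → M, ∑ π, α π • (List.ofFn fun k => X (π k)).prod = 0)
    (b : Fin m → B) :
    FreeAlgebra.lift F (fun i => (Unitization.inr (b i) : Unitization F B)) (mlp α) = 0 := by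
  apply ev_eq_zero (mlp α) (mlp_const hm α) (NonUnitalSubalgebraClass.subtype B)
    Subtype.val_injective
  rw [mlp_lift]
  exact h (fun i => NonUnitalSubalgebraClass.subtype B (b i))

end

end Pool.Agent.H67.PI
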