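import Pool.Agent.H67.PI.Emb

/-! Jordan polynomials: symmetric elements in at most three variables are Jordan polynomials
(Cohn), Jordan identities from associative ones, two generators of a Jordan algebra. -/

namespace Pool.Agent.H67.PI

open Finset Matrix

universe u v

section cohn

variable {F : Type u} [Field F] {R : Type v} [Ring R] [Algebra F R]

/-- `T L = product + reversed product` -/
def T (L : List R) : R := L.prod + L.reverse.prod

theorem T_rot (a : R) (L : List R) : T (a :: L) + T (L ++ [a]) = a * T L + T L * a := by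
  simp only [T, List.prod_cons, List.reverse_cons, List.prod_append, List.reverse_append,
    List.prod_nil, mul_one, List.reverse_nil, List.nil_append, List.singleton_append, mul_add,
    add_mul, List.prod_cons]
  abel

theorem T_join (a b : R) (u v : List R) :
    T (u ++ (a * b + b * a) :: v) = T (u ++ a :: b :: v) + T (u ++ b :: a :: v) := by
  simp only [T, List.prod_cons, List.reverse_cons, List.prod_append, List.reverse_append,
    List.prod_nil, mul_one, List.append_assoc, List.singleton_append, mul_add, add_mul, mul_assoc]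
  abel

variable (S : Submodule F R) (hS : ∀ a ∈ S, ∀ b ∈ S, a * b + b * a ∈ S)
  (h2 : (2 : F) ≠ 0)

include h2 in
theorem half_mem {z : R} (hz : z + z ∈ S) : z ∈ S := by
  have : z = (2 : F)⁻¹ • (z + z) := by
    rw [← two_smul F z, smul_smul, inv_mul_cancel₀ h2, one_smul]
  rw [this]
  exact S.smul_mem _ hz

include hS in
/-- full rotation, when all the lists obtained by deleting the first entry on the way are fine -/
theorem T_rotate (u v : List R) (hall : ∀ x ∈ u, x ∈ S)
    (hT : ∀ u1 x u2, u = u1 ++ x :: u2 → T (u2 ++ v ++ u1) ∈ S) :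
    T (u ++ v) - (-1 : ℤ) ^ u.length • T (v ++ u) ∈ S := by
  induction u generalizing v with
  | nil => simp
  | cons x u ih =>
    have h1 : T (u ++ v) ∈ S := by
      have := hT [] x u rfl
      simpa using this
    have h3 : T (x :: (u ++ v)) + T (u ++ v ++ [x]) ∈ S := by
      rw [T_rot]
      exact hS x (hall x (by simp)) _ h1
    have h4 := ih (v ++ [x]) (fun y hy => hall y (by simp [hy])) (by
      intro u1 y u2 hu
      have := hT (x :: u1) y u2 (by rw [hu]; simp)
      simpa using this)
    rw [← List.append_assoc] at h4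
    have h5 : T (x :: u ++ v) - (-1 : ℤ) ^ (x :: u).length • T (v ++ x :: u) =
        (T (x :: (u ++ v)) + T (u ++ v ++ [x])) -
        (T (u ++ v ++ [x]) - (-1 : ℤ) ^ u.length • T (v ++ [x] ++ u)) := by
      rw [List.length_cons, pow_succ]
      simp only [List.cons_append, List.append_assoc, mul_neg, mul_one, neg_smul]
      abel
    rw [h5]
    exact S.sub_mem h3 h4

include hS h2 in
/-- Cohn's theorem for three generators: `w + w*` is a Jordan polynomial. -/
theorem cohn3 (x : Fin 3 → R) (hx : ∀ i, x i ∈ S) (n : ℕ) :
    ∀ l : List (Fin 3), l.length = n → l ≠ [] → T (l.map x) ∈ S := by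
  induction n using Nat.strong_induction_on with
  | _ n ih =>
  intro l hl hne
  have hmem : ∀ l : List (Fin 3), ∀ y ∈ l.map x, y ∈ S := by
    intro l y hy
    rw [List.mem_map] at hy
    obtain ⟨i, _, rfl⟩ := hy
    exact hx i
  -- rotation of words of length n
  have rot : ∀ u v : List (Fin 3), (u ++ v).length = n → 2 ≤ n →
      T ((u ++ v).map x) - (-1 : ℤ) ^ u.length • T ((v ++ u).map x) ∈ S := by
    intro u v huv hn
    rw [List.map_append, List.map_append]
    have := T_rotate S hS (u.map x) (v.map x) (hmem u) (by
      intro u1 y u2 hu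
      obtain ⟨w1, w2, hw, hw1, hw2⟩ := List.map_eq_append_iff.1 hu
      obtain ⟨i, w3, rfl, rfl, rfl⟩ := List.map_eq_cons_iff.1 hw2
      subst hw hw1
      rw [← List.map_append, ← List.map_append]
      apply ih (w3 ++ v ++ w1).length _ _ rfl
      · intro h0
        have := congrArg List.length h0
        simp only [List.length_append, List.length_cons, List.length_nil] at this huv
        omega
      · simp at huv ⊢
        omega)
    simpa using this
  rcases Nat.lt_or_ge n 2 with hn | hn
  · -- length one
    have : l.length = 1 := by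
      have := List.length_pos_iff.2 hne
      omega
    obtain ⟨i, rfl⟩ := List.length_eq_one_iff.1 this
    simp only [T, List.map_cons, List.map_nil, List.reverse_singleton, List.prod_singleton]
    exact S.add_mem (hx i) (hx i)
  rcases Nat.even_or_odd n with he | ho
  swap
  · -- odd length: full rotation
    have := rot l [] (by simpa using hl) hn
    rw [hl, ho.neg_one_pow] at this
    simp only [List.append_nil, List.nil_append, neg_smul, one_smul, sub_neg_eq_add] at this
    exact half_mem S h2 this
  by_cases hn2 : n = 2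
  · rw [hn2] at hl
    obtain ⟨a, b, rfl⟩ := List.length_eq_two.1 hl
    simp only [T, List.map_cons, List.map_nil, List.reverse_cons, List.reverse_nil,
      List.nil_append, List.cons_append, List.prod_cons, List.prod_nil, mul_one]
    exact hS _ (hx a) _ (hx b)
  have hn4 : 4 ≤ n := by
    obtain ⟨k, rfl⟩ := he
    omega
  -- front swap
  have swap : ∀ (a b : Fin 3) (v : List (Fin 3)), (a :: b :: v).length = n →
      T ((a :: b :: v).map x) + T ((b :: a :: v).map x) ∈ S := by
    intro a b v hv
    have hc : x a * x b + x b * x a ∈ S := hS _ (hx a) _ (hx b)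
    have hjoin : ∀ u w : List (Fin 3), (u ++ w).length + 3 = n + 0 →
        T (u.map x ++ (x a * x b + x b * x a) :: w.map x) ∈ S := by
      intro u w huw
      rw [T_join]
      have e1 : u.map x ++ x a :: x b :: w.map x = (u ++ a :: b :: w).map x := by simp
      have e2 : u.map x ++ x b :: x a :: w.map x = (u ++ b :: a :: w).map x := by simp
      rw [e1, e2]
      apply S.add_mem
      · apply ih (u ++ a :: b :: w).length _ _ rfl (by simp)
        simp at huw ⊢
        omega
      · apply ih (u ++ b :: a :: w).length _ _ rfl (by simp)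
        simp at huw ⊢
        omega
    have e : T ((a :: b :: v).map x) + T ((b :: a :: v).map x) =
        T ((x a * x b + x b * x a) :: v.map x) := by
      have := T_join (x a) (x b) [] (v.map x)
      simpa using this.symm
    rw [e]
    -- first rotation
    have hv2 : v ≠ [] := by
      rintro rfl
      simp at hv
      omega
    have hTv : T (v.map x) ∈ S := by
      apply ih v.length _ _ rfl hv2
      simp at hv
      omega
    have r1 : T ((x a * x b + x b * x a) :: v.map x) +
        T (v.map x ++ [x a * x b + x b * x a]) ∈ S := by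
      rw [T_rot]
      exact hS _ hc _ hTv
    have r2 := T_rotate S hS (v.map x) [x a * x b + x b * x a] (hmem v) (by
      intro u1 y u2 hu
      obtain ⟨w1, w2, hw, hw1, hw2⟩ := List.map_eq_append_iff.1 hu
      obtain ⟨i, w3, rfl, rfl, rfl⟩ := List.map_eq_cons_iff.1 hw2
      subst hw hw1
      have := hjoin w3 w1 (by simp at hv ⊢; omega)
      simpa using this)
    have hev : Even (v.map x).length := by
      rw [List.length_map]
      simp at hv
      obtain ⟨k, hk⟩ := he
      exact ⟨k - 1, by omega⟩
    rw [hev.neg_one_pow, one_smul] at r2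
    have r3 := S.add_mem r1 (S.neg_mem r2)
    have e3 : T ((x a * x b + x b * x a) :: v.map x) +
        T (v.map x ++ [x a * x b + x b * x a]) +
        -(T (v.map x ++ [x a * x b + x b * x a]) -
          T ([x a * x b + x b * x a] ++ v.map x)) =
        T ((x a * x b + x b * x a) :: v.map x) + T ((x a * x b + x b * x a) :: v.map x) := by
      simp only [List.singleton_append]
      abel
    rw [e3] at r3
    exact half_mem S h2 r3
  -- membership is invariant under rotation
  have Qrot : ∀ u v : List (Fin 3), (u ++ v).length = n →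
      (T ((v ++ u).map x) ∈ S → T ((u ++ v).map x) ∈ S) := by
    intro u v huv h
    have h1 := rot u v huv hn
    have h3 := S.add_mem h1 (S.smul_of_tower_mem ((-1 : ℤ) ^ u.length) h)
    simpa using h3
  have Qswap : ∀ (u : List (Fin 3)) (a b : Fin 3) (v : List (Fin 3)),
      (u ++ a :: b :: v).length = n → T ((u ++ b :: a :: v).map x) ∈ S →
      T ((u ++ a :: b :: v).map x) ∈ S := by
    intro u a b v huv h
    apply Qrot u (a :: b :: v) huv
    have h1 : T ((b :: a :: v ++ u).map x) ∈ S := by
      apply Qrot (b :: a :: v) u _ h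
      simp at huv ⊢
      omega
    have h3 := swap a b (v ++ u) (by simp at huv ⊢; omega)
    have h4 := S.sub_mem h3 h1
    simpa using h4
  -- move two equal letters together
  have move : ∀ (v : List (Fin 3)) (a : Fin 3) (t : List (Fin 3)),
      (a :: (v ++ a :: t)).length = n → T ((a :: (v ++ a :: t)).map x) ∈ S := by
    intro v
    induction v using List.reverseRecOn with
    | nil =>
      intro a t ht
      have := swap a a t (by simpa using ht)
      exact half_mem S h2 (by simpa using this)
    | append_singleton v b ihv =>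
      intro a t ht
      have h1 := ihv a (b :: t) (by simp at ht ⊢; omega)
      have h3 := Qswap (a :: v) b a t (by simp at ht ⊢; omega) (by simpa using h1)
      simpa using h3
  -- a word of length at least four in three letters has a repeated letter
  have hdup : ¬ l.Nodup := by
    intro h
    have := h.length_le_card
    simp at this
    omega
  rw [List.nodup_iff_sublist] at hdup
  push Not at hdup
  obtain ⟨a, ha⟩ := hdup
  obtain ⟨u, v, t, hl'⟩ : ∃ u v t, l = u ++ a :: (v ++ a :: t) := by
    have h1 := ha
    obtain ⟨u, w, rfl, hw⟩ : ∃ u w, l = u ++ a :: w ∧ [a].Sublist w := by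
      clear * - h1
      induction l with
      | nil => simp at h1
      | cons b l ihl =>
        by_cases hb : a = b
        · subst hb
          exact ⟨[], l, rfl, List.cons_sublist_cons.1 h1⟩
        · rcases List.sublist_cons_iff.1 h1 with h | ⟨r, hr, _⟩
          · obtain ⟨u, w, rfl, hw⟩ := ihl h
            exact ⟨b :: u, w, rfl, hw⟩
          · simp at hr
            exact absurd hr.1 hb
    rw [List.singleton_sublist] at hw
    obtain ⟨v, t, rfl⟩ := List.append_of_mem hw
    exact ⟨u, v, t, rfl⟩
  subst hl'
  apply Qrot u (a :: (v ++ a :: t)) hl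
  have := move v a (t ++ u) (by simp at hl ⊢; omega)
  simpa using this

end cohn

section poly

variable {F : Type u} [Field F]

theorem star_word (l : List (Fin 3)) :
    star ((l.map (FreeAlgebra.ι F)).prod) = ((l.map (FreeAlgebra.ι F)).reverse).prod := by
  induction l with
  | nil => simp
  | cons a l ih =>
    rw [List.map_cons, List.prod_cons, star_mul, ih, List.reverse_cons, List.prod_append,
      FreeAlgebra.star_ι, List.prod_singleton]

theorem star_smul' (r : F) (x : FreeAlgebra F (Fin 3)) : star (r • x) = r • star x := by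
  rw [Algebra.smul_def, star_mul, FreeAlgebra.star_algebraMap, Algebra.smul_def]
  exact (Algebra.commutes r (star x)).symm

theorem const_coeff (h : FreeAlgebra F (Fin 3)) (h0 : FreeAlgebra.algebraMapInv h = 0) :
    (FreeAlgebra.basisFreeMonoid F (Fin 3)).repr h 1 = 0 := by
  have h1 : FreeAlgebra.lift F (0 : Fin 3 → F) h = 0 := h0
  rw [lift_eq] at h1
  by_contra hne
  rw [Finset.sum_eq_single (1 : FreeMonoid (Fin 3))] at h1
  · apply hne
    simpa using h1
  · intro w _ hw
    have : w.toList ≠ [] := by
      intro h
      apply hw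
      exact FreeMonoid.toList.injective h
    obtain ⟨i, l, hl⟩ := List.exists_cons_of_ne_nil this
    rw [hl]
    simp
  · intro hn
    exact absurd (Finsupp.mem_support_iff.2 hne) hn

/-- `h + h*` is a Jordan polynomial when `h` has no constant term. -/
theorem sym_mem (h2 : (2 : F) ≠ 0) (S : Submodule F (FreeAlgebra F (Fin 3)))
    (hS : ∀ a ∈ S, ∀ b ∈ S, a * b + b * a ∈ S) (hx : ∀ i, FreeAlgebra.ι F i ∈ S)
    (h : FreeAlgebra F (Fin 3)) (h0 : FreeAlgebra.algebraMapInv h = 0) : h + star h ∈ S := by
  have h1 := (FreeAlgebra.basisFreeMonoid F (Fin 3)).linearCombination_repr h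
  rw [Finsupp.linearCombination_apply, Finsupp.sum] at h1
  rw [← h1, star_sum, ← Finset.sum_add_distrib]
  apply Submodule.sum_mem
  intro w hw
  rw [star_smul', ← smul_add]
  apply Submodule.smul_mem
  rw [basis_eq, star_word]
  apply cohn3 S hS h2 (FreeAlgebra.ι F) hx _ w.toList rfl
  intro hw0
  have : w = 1 := FreeMonoid.toList.injective hw0
  rw [this] at hw
  exact (Finsupp.mem_support_iff.1 hw) (const_coeff h h0)

theorem rep_inj (n n' : ℕ) (r r' : List (Fin 3)) (hr : r = [] ∨ ∃ s, r = 1 :: s)
    (hr' : r' = [] ∨ ∃ s, r' = 1 :: s)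
    (h : List.replicate n 0 ++ r = List.replicate n' 0 ++ r') : n = n' ∧ r = r' := by
  induction n generalizing n' with
  | zero =>
    cases n' with
    | zero => simpa using h
    | succ n' =>
      exfalso
      rw [List.replicate_succ] at h
      rcases hr with rfl | ⟨s, rfl⟩ <;> simp at h
  | succ n ih =>
    cases n' with
    | zero =>
      exfalso
      rw [List.replicate_succ] at h
      rcases hr' with rfl | ⟨s, rfl⟩ <;> simp at h
    | succ n' =>
      rw [List.replicate_succ, List.replicate_succ] at h
      simp only [List.cons_append, List.cons.injEq, true_and] at h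
      obtain ⟨h1, h3⟩ := ih n' h
      exact ⟨by rw [h1], h3⟩

theorem enc_inj (L L' : List ℕ)
    (h : (L.map fun n => (1 : Fin 3) :: List.replicate (n + 1) 0).flatten =
      (L'.map fun n => (1 : Fin 3) :: List.replicate (n + 1) 0).flatten) : L = L' := by
  induction L generalizing L' with
  | nil =>
    cases L' with
    | nil => rfl
    | cons a L' => simp at h
  | cons a L ih =>
    cases L' with
    | nil => simp at h
    | cons a' L' =>
      have start : ∀ L : List ℕ, (L.map fun n => (1 : Fin 3) :: List.replicate (n + 1) 0).flatten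
          = [] ∨ ∃ s, (L.map fun n => (1 : Fin 3) :: List.replicate (n + 1) 0).flatten = 1 :: s := by
        intro L
        cases L with
        | nil => left; rfl
        | cons b L => right; exact ⟨_, by rw [List.map_cons, List.flatten_cons]; rfl⟩
      rw [List.map_cons, List.map_cons, List.flatten_cons, List.flatten_cons, List.cons_append,
        List.cons_append, List.cons.injEq] at h
      obtain ⟨h1, h3⟩ := rep_inj _ _ _ _ (start L) (start L') h.2
      rw [ih L' h3, Nat.succ.inj h1]

/-- the two-variable form of a multilinear polynomial -/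
noncomputable def two {m : ℕ} (α : Equiv.Perm (Fin m) → F) : FreeAlgebra F (Fin 3) :=
  FreeAlgebra.lift F (fun i : Fin m => FreeAlgebra.ι F (1 : Fin 3) *
    FreeAlgebra.ι F (0 : Fin 3) ^ ((i : ℕ) + 1)) (mlp α)

theorem two_ne_zero' {m : ℕ} (α : Equiv.Perm (Fin m) → F) (hα : α ≠ 0) : two α ≠ 0 := by
  classical
  intro h0
  apply hα
  funext π0
  set W : Equiv.Perm (Fin m) → List (Fin 3) := fun π =>
    ((List.ofFn fun k => ((π k : Fin m) : ℕ)).map fun n =>
      (1 : Fin 3) :: List.replicate (n + 1) 0).flatten with hW
  have h1 : ∀ π : Equiv.Perm (Fin m), (List.ofFn fun k => FreeAlgebra.ι F (1 : Fin 3) *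
      FreeAlgebra.ι F (0 : Fin 3) ^ (((π k : Fin m) : ℕ) + 1)).prod =
      FreeAlgebra.basisFreeMonoid F (Fin 3) (FreeMonoid.ofList (W π)) := by
    intro π
    rw [basis_eq, FreeMonoid.toList_ofList, hW]
    simp only
    rw [List.map_flatten, List.prod_flatten, List.map_map, List.map_map, List.map_ofFn]
    congr 2
    funext k
    simp
  have h2 := h0
  unfold two at h2
  rw [mlp_lift] at h2
  simp only [h1] at h2
  have h3 := congrArg (fun f => (FreeAlgebra.basisFreeMonoid F (Fin 3)).repr f
    (FreeMonoid.ofList (W π0))) h2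
  simp only [map_sum, map_smul, Module.Basis.repr_self, map_zero, Finsupp.coe_zero,
    Pi.zero_apply, Finsupp.finsetSum_apply, Finsupp.smul_apply, Finsupp.single_apply] at h3
  rw [Finset.sum_eq_single π0] at h3
  · simpa using h3
  · intro π _ hπ
    rw [if_neg, smul_zero]
    intro h4
    apply hπ
    have h5 := enc_inj _ _ (FreeMonoid.ofList.injective h4)
    have h6 := List.ofFn_injective h5
    apply Equiv.ext
    intro k
    exact Fin.ext (congrFun h6 k)
  · simp

/-- A multilinear associative identity has a nonzero Jordan polynomial as a consequence. -/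
theorem jordan_identity (h2 : (2 : F) ≠ 0) (S : Submodule F (FreeAlgebra F (Fin 3)))
    (hS : ∀ a ∈ S, ∀ b ∈ S, a * b + b * a ∈ S) (hx : ∀ i, FreeAlgebra.ι F i ∈ S)
    {m : ℕ} (hm : 0 < m) (α : Equiv.Perm (Fin m) → F) (hα : α ≠ 0) :
    ∃ f ∈ S, f ≠ 0 ∧ FreeAlgebra.algebraMapInv f = 0 ∧
      ∀ (C : Type v) [Ring C] [Algebra F C],
      (∀ X : Fin m → C, ∑ π, α π • (List.ofFn fun k => X (π k)).prod = 0) →
      ∀ c : Fin 3 → C, FreeAlgebra.lift F c f = 0 := by
  have hc : FreeAlgebra.algebraMapInv (two α) = 0 := by
    have h1 : FreeAlgebra.algebraMapInv.comp (FreeAlgebra.lift F (fun i : Fin m =>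
        FreeAlgebra.ι F (1 : Fin 3) * FreeAlgebra.ι F (0 : Fin 3) ^ ((i : ℕ) + 1))) =
        FreeAlgebra.algebraMapInv := by
      ext i
      simp [FreeAlgebra.algebraMapInv]
    have h3 := congrArg (fun g => g (mlp α)) h1
    simp only [AlgHom.comp_apply] at h3
    unfold two
    rw [h3]
    exact mlp_const hm α
  have hf0 : FreeAlgebra.algebraMapInv (two α * star (two α)) = 0 := by
    rw [map_mul, hc, zero_mul]
  refine ⟨two α * star (two α), ?_, ?_, hf0, ?_⟩
  · have := sym_mem h2 S hS hx (two α * star (two α)) hf0
    rw [star_mul, star_star] at this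
    exact half_mem S h2 this
  · apply mul_ne_zero (two_ne_zero' α hα)
    intro h
    apply two_ne_zero' α hα
    have := congrArg star h
    rwa [star_star, star_zero] at this
  · intro C _ _ hC c
    rw [map_mul]
    have h1 : FreeAlgebra.lift F c (two α) = 0 := by
      have h3 : (FreeAlgebra.lift F c).comp (FreeAlgebra.lift F (fun i : Fin m =>
          FreeAlgebra.ι F (1 : Fin 3) * FreeAlgebra.ι F (0 : Fin 3) ^ ((i : ℕ) + 1))) =
          FreeAlgebra.lift F (fun i : Fin m => c 1 * c 0 ^ ((i : ℕ) + 1)) := by
        ext i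
        simp
      have h4 := congrArg (fun g => g (mlp α)) h3
      simp only [AlgHom.comp_apply] at h4
      unfold two
      rw [h4, mlp_lift]
      exact hC (fun i => c 1 * c 0 ^ ((i : ℕ) + 1))
    rw [h1, zero_mul]

end poly

section gen

variable (F : Type u) [Field F] {C : Type v} [Ring C] [Algebra F C] {N : ℕ} [NeZero N]

theorem triple_mem {R : Type v} [Ring R] [Algebra F R] (h2 : (2 : F) ≠ 0) (S : Submodule F R)
    (hS : ∀ a ∈ S, ∀ b ∈ S, a * b + b * a ∈ S) {a b c : R} (ha : a ∈ S) (hb : b ∈ S)
    (hc : c ∈ S) : a * b * c + c * b * a ∈ S := by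
  apply half_mem S h2
  have h1 := hS _ (hS a ha b hb) c hc
  have h3 := hS _ (hS b hb c hc) a ha
  have h4 := hS _ (hS a ha c hc) b hb
  have h5 := S.sub_mem (S.add_mem h1 h3) h4
  convert h5 using 1
  noncomm_ring

theorem P_mem_jordan (h2 : (2 : F) ≠ 0) (S : Submodule F (Matrix (ZMod N) (ZMod N) C))
    (hS : ∀ a ∈ S, ∀ b ∈ S, a * b + b * a ∈ S) (h1 : P C N 1 ∈ S)
    (p : ZMod N) : P C N p ∈ S := by
  have h3 : ∀ n : ℕ, (P C N 1) ^ (n + 1) ∈ S := by
    intro n
    induction n with
    | zero => simpa using h1
    | succ n ih =>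
      apply half_mem S h2
      have := hS _ ih _ h1
      rwa [← pow_succ, ← pow_succ'] at this
  have hN : 0 < N := Nat.pos_of_ne_zero (NeZero.ne N)
  have h3 := h3 (p.val + (N - 1))
  rw [P_pow] at h3
  have h4 : ((p.val + (N - 1) + 1 : ℕ) : ZMod N) = p := by
    have : p.val + (N - 1) + 1 = p.val + N := by omega
    rw [this]
    push_cast
    rw [ZMod.natCast_zmod_val, ZMod.natCast_self, add_zero]
  rwa [h4] at h3

theorem jordan_gen (h2 : (2 : F) ≠ 0) (hN : N % 4 = 0) (hN8 : 20 ≤ N) (a' : ℕ → C)
    (S : Submodule F (Matrix (ZMod N) (ZMod N) C))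
    (hS : ∀ a ∈ S, ∀ b ∈ S, a * b + b * a ∈ S) (h1 : P C N 1 ∈ S)
    (hy : Matrix.diagonal (h N a') ∈ S) (j : ℕ) (hj : 4 * j + 12 < N) :
    Matrix.single (1 : ZMod N) 1 (a' j) ∈ S := by
  have h3 : ∀ p q : ZMod N, p + q = 0 →
      Matrix.diagonal (fun i => h N a' (i + p) + h N a' (i + q)) ∈ S := by
    intro p q hpq
    have hqp : q + p = 0 := by rw [add_comm]; exact hpq
    have := triple_mem F h2 S hS (P_mem_jordan F h2 S hS h1 p) hy (P_mem_jordan F h2 S hS h1 q)
    rw [P_conj p q hpq, P_conj q p hqp, Matrix.diagonal_add] at this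
    exact this
  have hneg : ∀ n : ℕ, n ≤ N → (n : ZMod N) + ((N - n : ℕ) : ZMod N) = 0 := by
    intro n hn
    rw [← Nat.cast_add, Nat.add_sub_cancel' hn, ZMod.natCast_self]
  have hd : ∀ u w : ZMod N → C, Matrix.diagonal u * Matrix.diagonal w +
      Matrix.diagonal w * Matrix.diagonal u = Matrix.diagonal fun i => u i * w i + w i * u i := by
    intro u w
    rw [Matrix.diagonal_mul_diagonal, Matrix.diagonal_mul_diagonal, Matrix.diagonal_add]
  have half : ∀ (p : ZMod N → Prop) [DecidablePred p],
      (Matrix.diagonal fun i => if p i then (2 : C) else 0) ∈ S →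
      (Matrix.diagonal fun i => if p i then (1 : C) else 0) ∈ S := by
    intro p _ hp
    apply half_mem S h2
    have e : (fun i => (if p i then (1 : C) else 0) + (if p i then (1 : C) else 0)) =
        fun i => if p i then (2 : C) else 0 := by
      funext i
      split_ifs <;> norm_num
    rw [Matrix.diagonal_add, e]
    exact hp
  have e1 : (Matrix.diagonal fun i : ZMod N => if i = 0 ∨ i = 1 then (1 : C) else 0) ∈ S := by
    apply half
    have h4 := h3 1 ((N - 1 : ℕ) : ZMod N) (by
      have := hneg 1 (by omega)
      rwa [Nat.cast_one] at this)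
    have h5 := hS _ hy _ h4
    rw [hd] at h5
    simpa only [h_sum_one hN hN8] using h5
  have e2 : (Matrix.diagonal fun i : ZMod N => if i = 1 ∨ i.val = 3 then (1 : C) else 0) ∈ S := by
    apply half
    have h4 := h3 ((2 : ℕ) : ZMod N) ((N - 2 : ℕ) : ZMod N) (hneg 2 (by omega))
    have h5 := hS _ hy _ h4
    rw [hd] at h5
    simpa only [h_sum_two hN hN8] using h5
  have e3 : (Matrix.diagonal fun i : ZMod N => if i = 1 then (1 : C) else 0) ∈ S := by
    apply half
    have h5 := hS _ e1 _ e2
    rw [hd] at h5
    convert h5 using 2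
    funext i
    by_cases hi : i = 1
    · simp [hi]
      norm_num
    · by_cases hi0 : i = 0
      · subst hi0
        simp [hi]
      · simp [hi, hi0]
  have h4 := h3 ((4 * j + 7 : ℕ) : ZMod N) ((N - (4 * j + 7) : ℕ) : ZMod N)
    (hneg (4 * j + 7) (by omega))
  have h5 := hS _ e3 _ h4
  rw [hd] at h5
  apply half_mem S h2
  convert h5 using 1
  ext i l
  rw [Matrix.diagonal_apply, Matrix.add_apply, Matrix.single_apply]
  by_cases hil : i = l
  · subst hil
    by_cases hi : i = 1
    · subst hi
      rw [h_at_one hN a' j hj]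
      simp
    · simp [hi, Ne.symm hi]
  · by_cases hi : 1 = i
    · subst hi
      simp [hil]
    · simp [hi, hil]

end gen

end Pool.Agent.H67.PI
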