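import Mathlib

/-! Latyshev's reduction of monomials modulo a multilinear identity, and the count of good words. -/

namespace Pool.Agent.H67.PI

open Finset

universe u v

/-- no decreasing subsequence of length `d` -/
def Good {m : ℕ} (d : ℕ) (w : List (Fin m)) : Prop :=
  ¬ ∃ s : List (Fin m), s.Sublist w ∧ s.Pairwise (· > ·) ∧ s.length = d

/-- elements of the same colour occur in increasing order -/
def Col {m D : ℕ} (χ : Fin m → Fin D) (w : List (Fin m)) : Prop :=
  w.Pairwise fun x y => χ x = χ y → x < y

theorem exists_col {m : ℕ} (w : List (Fin m)) (hw : w.Nodup) :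
    ∃ χ : Fin m → ℕ, (w.Pairwise fun x y => χ x = χ y → x < y) ∧
      ∀ x ∈ w, ∃ s : List (Fin m), (x :: s).Sublist w ∧ (x :: s).Pairwise (· > ·) ∧
        (x :: s).length = χ x + 1 := by
  induction w with
  | nil => exact ⟨fun _ => 0, List.Pairwise.nil, fun x hx => by simp at hx⟩
  | cons a w ih =>
    rw [List.nodup_cons] at hw
    obtain ⟨χ, h1, h2⟩ := ih hw.2
    set M := (w.toFinset.filter (· < a)).sup (fun y => χ y + 1) with hM
    refine ⟨Function.update χ a M, ?_, ?_⟩
    · rw [List.pairwise_cons]
      constructor
      · intro y hy hxy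
        have hya : y ≠ a := fun h => hw.1 (h ▸ hy)
        rw [Function.update_self, Function.update_of_ne hya] at hxy
        by_contra hc
        have hlt : y < a := lt_of_le_of_ne (not_lt.1 hc) hya
        have : χ y + 1 ≤ M := by
          rw [hM]
          exact Finset.le_sup (f := fun y => χ y + 1) (by simp [hy, hlt])
        omega
      · refine h1.imp_of_mem ?_
        intro x y hx hy hxy
        have hxa : x ≠ a := fun h => hw.1 (h ▸ hx)
        have hya : y ≠ a := fun h => hw.1 (h ▸ hy)
        rw [Function.update_of_ne hxa, Function.update_of_ne hya]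
        exact hxy
    · intro x hx
      rw [List.mem_cons] at hx
      by_cases hxa : x = a
      · subst hxa
        rw [Function.update_self]
        rcases Nat.eq_zero_or_pos M with h0 | h0
        · refine ⟨[], ?_, by simp, by simp [h0]⟩
          exact List.Sublist.cons_cons _ (List.nil_sublist _)
        · have hne : (w.toFinset.filter (· < x)).Nonempty := by
            rw [Finset.nonempty_iff_ne_empty]
            intro he
            rw [he] at hM
            simp at hM
            omega
          obtain ⟨y, hy, hyM⟩ := Finset.exists_mem_eq_sup _ hne (fun y => χ y + 1)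
          rw [Finset.mem_filter, List.mem_toFinset] at hy
          obtain ⟨s, hs1, hs2, hs3⟩ := h2 y hy.1
          refine ⟨y :: s, hs1.cons_cons _, ?_, ?_⟩
          · rw [List.pairwise_cons]
            refine ⟨?_, hs2⟩
            intro z hz
            rw [List.mem_cons] at hz
            rcases hz with rfl | hz
            · exact hy.2
            · exact ((List.pairwise_cons.1 hs2).1 z hz).trans hy.2
          · rw [List.length_cons, hs3, hM, hyM]
      · rw [Function.update_of_ne hxa]
        obtain ⟨s, hs1, hs2, hs3⟩ := h2 x (hx.resolve_left hxa)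
        exact ⟨s, hs1.cons _, hs2, hs3⟩

theorem exists_col_fin {m d : ℕ} (w : List (Fin m)) (hw : w.Nodup) (hg : Good d w) :
    ∃ χ : Fin m → Fin (d + 1), Col χ w := by
  obtain ⟨χ, h1, h2⟩ := exists_col w hw
  have h3 : ∀ x ∈ w, χ x < d + 1 := by
    intro x hx
    by_contra hc
    obtain ⟨s, hs1, hs2, hs3⟩ := h2 x hx
    apply hg
    refine ⟨(x :: s).take d, (List.take_sublist _ _).trans hs1,
      hs2.sublist (List.take_sublist _ _), ?_⟩
    rw [List.length_take, hs3]
    omega
  refine ⟨fun x => if h : χ x < d + 1 then ⟨χ x, h⟩ else 0, ?_⟩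
  refine h1.imp_of_mem ?_
  intro x y hx hy hxy h
  apply hxy
  simp only [h3 x hx, h3 y hy, dif_pos, Fin.mk.injEq] at h
  exact h

theorem col_inj {m D : ℕ} (χ : Fin m → Fin D) (w w' : List (Fin m)) (hp : w.Perm w')
    (h : Col χ w) (h' : Col χ w') (he : w.map χ = w'.map χ) : w = w' := by
  induction w generalizing w' with
  | nil => exact (List.nil_perm.1 hp).symm
  | cons a w ih =>
    cases w' with
    | nil => simp at hp
    | cons a' w' =>
      have haa : a = a' := by
        simp only [List.map_cons, List.cons.injEq] at he
        by_contra hne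
        have h1 : a' ∈ w := by
          have : a' ∈ a :: w := hp.symm.subset (List.mem_cons_self ..)
          rw [List.mem_cons] at this
          exact this.resolve_left (fun h => hne h.symm)
        have h2 : a ∈ w' := by
          have : a ∈ a' :: w' := hp.subset (List.mem_cons_self ..)
          rw [List.mem_cons] at this
          exact this.resolve_left hne
        have h3 := (List.pairwise_cons.1 h).1 a' h1 he.1
        have h4 := (List.pairwise_cons.1 h').1 a h2 he.1.symm
        exact absurd h3 (not_lt.2 h4.le)
      subst haa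
      congr 1
      apply ih w' ((List.perm_cons _).1 hp) (List.pairwise_cons.1 h).2 (List.pairwise_cons.1 h').2
      simpa using he

theorem blocks {m : ℕ} {s w : List (Fin m)} (h : s.Sublist w) :
    ∃ (u0 : List (Fin m)) (B : List (Fin m × List (Fin m))),
      w = u0 ++ (B.map fun b => b.1 :: b.2).flatten ∧ B.map Prod.fst = s := by
  induction h with
  | slnil => exact ⟨[], [], by simp, by simp⟩
  | cons a h ih =>
    obtain ⟨u0, B, h1, h2⟩ := ih
    exact ⟨a :: u0, B, by rw [h1]; simp, h2⟩
  | cons_cons a h ih =>
    obtain ⟨u0, B, h1, h2⟩ := ih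
    exact ⟨[], (a, u0) :: B, by rw [h1]; simp, by simp [h2]⟩

theorem lex_lt {m : ℕ} (u0 x y : List (Fin m)) (h : x < y) : u0 ++ x < u0 ++ y := by
  induction u0 with
  | nil => exact h
  | cons a u ih => exact List.Lex.cons ih

/-- moving blocks with decreasing first letters makes the word smaller -/
theorem perm_lt {m d : ℕ} (B : Fin d → Fin m × List (Fin m)) (hB : StrictAnti fun i => (B i).1)
    (τ : Equiv.Perm (Fin d)) (hτ : τ ≠ 1) :
    (List.ofFn fun k => (B (τ k)).1 :: (B (τ k)).2).flatten <
      (List.ofFn fun k => (B k).1 :: (B k).2).flatten := by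
  classical
  -- first index moved
  have hne : ∃ k, τ k ≠ k := by
    by_contra h
    push Not at h
    exact hτ (Equiv.ext h)
  obtain ⟨k, hk, hmin⟩ : ∃ k, τ k ≠ k ∧ ∀ i < k, τ i = i := by
    have hS : (univ.filter fun k => τ k ≠ k).Nonempty := by
      obtain ⟨k, hk⟩ := hne
      exact ⟨k, by simp [hk]⟩
    refine ⟨(univ.filter fun k => τ k ≠ k).min' hS, ?_, ?_⟩
    · have := Finset.min'_mem _ hS
      simpa using this
    · intro i hi
      by_contra hc
      have : (univ.filter fun k => τ k ≠ k).min' hS ≤ i := Finset.min'_le _ _ (by simp [hc])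
      exact absurd hi (not_lt.2 this)
  have hgt : k < τ k := by
    rcases lt_trichotomy (τ k) k with h | h | h
    · have := hmin _ h
      exact absurd (τ.injective this) h.ne
    · exact absurd h hk
    · exact h
  -- split the lists at k
  have split : ∀ (G : Fin d → List (Fin m)), (List.ofFn G).flatten =
      ((List.ofFn G).take k.val).flatten ++ (G k ++ ((List.ofFn G).drop (k.val + 1)).flatten) := by
    intro G
    conv_lhs => rw [← List.take_append_drop k.val (List.ofFn G)]
    rw [List.flatten_append]
    congr 1
    have hk' : k.val < (List.ofFn G).length := by simp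
    rw [List.drop_eq_getElem_cons hk']
    simp
  rw [split (fun k => (B (τ k)).1 :: (B (τ k)).2), split (fun k => (B k).1 :: (B k).2)]
  have htake : (List.ofFn fun k => (B (τ k)).1 :: (B (τ k)).2).take k.val =
      (List.ofFn fun k => (B k).1 :: (B k).2).take k.val := by
    apply List.ext_getElem
    · simp
    · intro i h1 h2
      simp only [List.length_take, List.length_ofFn, lt_min_iff] at h1
      simp only [List.getElem_take, List.getElem_ofFn]
      have := hmin ⟨i, h1.2⟩ (Fin.lt_def.2 h1.1)
      rw [this]
  rw [htake]
  apply lex_lt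
  exact List.Lex.rel (hB hgt)

theorem exists_ofFn {α : Type*} {d : ℕ} (l : List α) (h : l.length = d) :
    ∃ f : Fin d → α, l = List.ofFn f := by
  subst h
  exact ⟨l.get, (List.ofFn_get l).symm⟩

theorem map_prod_mem {F : Type u} [Field F] {C : Type v} [Ring C] [Algebra F C] (S : Submodule F C)
    (hS : ∀ x ∈ S, ∀ y ∈ S, x * y ∈ S) {m : ℕ} (a : Fin m → C) (ha : ∀ i, a i ∈ S)
    (i : Fin m) (l : List (Fin m)) : ((i :: l).map a).prod ∈ S := by
  induction l generalizing i with
  | nil => simpa using ha i
  | cons j l ih =>
    rw [List.map_cons, List.prod_cons]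
    exact hS _ (ha i) _ (ih j)

theorem flatten_map_prod {C : Type v} [Ring C] {m d : ℕ} (a : Fin m → C)
    (G : Fin d → List (Fin m)) :
    ((List.ofFn G).flatten.map a).prod = (List.ofFn fun k => ((G k).map a).prod).prod := by
  rw [List.map_flatten, List.prod_flatten, List.map_map, List.map_ofFn]
  rfl

/-- Latyshev's reduction: modulo a multilinear identity every word without repetitions is a
combination of good rearrangements, with coefficients not depending on the values. -/
theorem reduce {F : Type u} [Field F] {C : Type v} [Ring C] [Algebra F C] (S : Submodule F C)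
    (hS : ∀ x ∈ S, ∀ y ∈ S, x * y ∈ S) {d : ℕ} (c : Equiv.Perm (Fin d) → F) (hc1 : c 1 = 1)
    (hc : ∀ a : Fin d → C, (∀ i, a i ∈ S) → ∑ τ, c τ • (List.ofFn fun k => a (τ k)).prod = 0)
    {m : ℕ} (w : List (Fin m)) :
    ∃ r : List (Fin m) →₀ F, (∀ v ∈ r.support, v.Perm w ∧ Good d v) ∧
      ∀ a : Fin m → C, (∀ i, a i ∈ S) →
        (w.map a).prod = Finsupp.linearCombination F (fun v : List (Fin m) => (v.map a).prod) r := by
  classical
  have hfin : {v : List (Fin m) | v.Perm w}.Finite := by
    refine (w.permutations.toFinset.finite_toSet).subset ?_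
    intro v hv
    simp [List.mem_permutations]
    exact hv
  have hwf : {v : List (Fin m) | v.Perm w}.WellFoundedOn (· < ·) := hfin.wellFoundedOn
  have hmain : ∀ v ∈ {v : List (Fin m) | v.Perm w}, ∃ r : List (Fin m) →₀ F,
      (∀ v' ∈ r.support, v'.Perm w ∧ Good d v') ∧ ∀ a : Fin m → C, (∀ i, a i ∈ S) →
      (v.map a).prod =
        Finsupp.linearCombination F (fun v : List (Fin m) => (v.map a).prod) r := by
    intro v0 hv0
    apply Set.WellFoundedOn.induction hwf (P := fun v => ∃ r : List (Fin m) →₀ F,
      (∀ v' ∈ r.support, v'.Perm w ∧ Good d v') ∧ ∀ a : Fin m → C, (∀ i, a i ∈ S) →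
      (v.map a).prod =
        Finsupp.linearCombination F (fun v : List (Fin m) => (v.map a).prod) r) hv0
    intro v hv ih
    have hv' : v.Perm w := hv
    by_cases hg : Good d v
    · refine ⟨Finsupp.single v 1, ?_, ?_⟩
      · intro v' hv1
        have : v' = v := by
          have := Finsupp.support_single_subset hv1
          simpa using this
        subst this
        exact ⟨hv', hg⟩
      · intro a _
        simp
    · unfold Good at hg
      rw [not_not] at hg
      obtain ⟨s, hs1, hs2, hs3⟩ := hg
      obtain ⟨u0, B, hB1, hB2⟩ := blocks hs1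
      have hBl : B.length = d := by
        rw [← hs3, ← hB2, List.length_map]
      obtain ⟨B', rfl⟩ := exists_ofFn B hBl
      have hanti : StrictAnti fun i => (B' i).1 := by
        rw [← hB2, List.map_ofFn, List.pairwise_ofFn] at hs2
        intro i j hij
        exact hs2 hij
      set G : Fin d → List (Fin m) := fun k => (B' k).1 :: (B' k).2 with hG
      have hvG : v = u0 ++ (List.ofFn G).flatten := by
        rw [hB1, List.map_ofFn]
        rfl
      set W : Equiv.Perm (Fin d) → List (Fin m) := fun τ =>
        u0 ++ (List.ofFn fun k => G (τ k)).flatten with hW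
      have hWp : ∀ τ, (W τ).Perm w := by
        intro τ
        refine List.Perm.trans ?_ hv'
        rw [hvG]
        apply List.Perm.append_left
        apply List.Perm.flatten
        exact Equiv.Perm.ofFn_comp_perm τ G
      have hWlt : ∀ τ, τ ≠ 1 → W τ < v := by
        intro τ hτ
        rw [hvG]
        exact lex_lt _ _ _ (perm_lt B' hanti τ hτ)
      have hr : ∀ τ : Equiv.Perm (Fin d), ∃ r : List (Fin m) →₀ F, τ ≠ 1 →
          ((∀ v' ∈ r.support, v'.Perm w ∧ Good d v') ∧ ∀ a : Fin m → C, (∀ i, a i ∈ S) →
          ((W τ).map a).prod =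
            Finsupp.linearCombination F (fun v : List (Fin m) => (v.map a).prod) r) := by
        intro τ
        by_cases hτ : τ = 1
        · exact ⟨0, fun h => absurd hτ h⟩
        · obtain ⟨r, hr⟩ := ih (W τ) (hWp τ) (hWlt τ hτ)
          exact ⟨r, fun _ => hr⟩
      choose r hr using hr
      refine ⟨∑ τ ∈ univ.erase (1 : Equiv.Perm (Fin d)), (-c τ) • r τ, ?_, ?_⟩
      · intro v' hv1
        have h1 := Finsupp.support_finsetSum hv1
        rw [Finset.mem_biUnion] at h1
        obtain ⟨τ, hτ, hτv⟩ := h1
        have hτ1 : τ ≠ 1 := (Finset.mem_erase.1 hτ).1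
        exact (hr τ hτ1).1 v' (Finsupp.support_smul hτv)
      · intro a ha
        rw [map_sum]
        have h2 : ∀ τ ∈ univ.erase (1 : Equiv.Perm (Fin d)),
            Finsupp.linearCombination F (fun v : List (Fin m) => (v.map a).prod)
              ((-c τ) • r τ) = (-c τ) • ((W τ).map a).prod := by
          intro τ hτ
          have hτ1 : τ ≠ 1 := (Finset.mem_erase.1 hτ).1
          rw [map_smul, ← (hr τ hτ1).2 a ha]
        rw [Finset.sum_congr rfl h2]
        have hb : ∀ k, ((G k).map a).prod ∈ S := fun k => map_prod_mem S hS a ha _ _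
        have h3 := hc (fun k => ((G k).map a).prod) hb
        rw [← Finset.add_sum_erase _ _ (Finset.mem_univ (1 : Equiv.Perm (Fin d)))] at h3
        simp only [hc1, one_smul, Equiv.Perm.coe_one, id_eq] at h3
        have h4 : ∀ τ : Equiv.Perm (Fin d), ((W τ).map a).prod =
            (u0.map a).prod * (List.ofFn fun k => ((G (τ k)).map a).prod).prod := by
          intro τ
          rw [hW]
          simp only
          rw [List.map_append, List.prod_append, flatten_map_prod]
        rw [hvG, List.map_append, List.prod_append, flatten_map_prod]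
        rw [eq_neg_of_add_eq_zero_left h3]
        simp only [h4, neg_smul, Finset.sum_neg_distrib, mul_neg, Finset.mul_sum,
          mul_smul_comm]
  exact hmain w (List.Perm.refl w)

end Pool.Agent.H67.PI
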